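import Pool.Agent.Helper30.DL.GoalsA

/-! # PACKET UINF: upper bounds for large delays -/

set_option autoImplicit false

open Filter Topology Finset

namespace Pool.Agent.Helper90.DL

open Pool.Agent.Helper30.DL

/-- `2 (1 - e^{-x}) ≤ x (1 + e^{-x})` for `x ≥ 0`. -/
theorem trap0 {x : ℝ} (hx : 0 ≤ x) : 2 * (1 - Real.exp (-x)) ≤ x * (1 + Real.exp (-x)) := by
  have h1 : MonotoneOn (fun y : ℝ => y * (1 + Real.exp (-y)) - 2 * (1 - Real.exp (-y)))
      (Set.Ici 0) := by
    have hd : ∀ y : ℝ, HasDerivAt (fun y : ℝ => y * (1 + Real.exp (-y)) - 2 * (1 - Real.exp (-y)))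
        (1 - (1 + y) * Real.exp (-y)) y := by
      intro y
      have e1 : HasDerivAt (fun y : ℝ => Real.exp (-y)) (Real.exp (-y) * -1) y :=
        (hasDerivAt_neg y).exp
      have e2 := ((hasDerivAt_id y).mul (e1.const_add 1)).sub ((e1.const_sub 1).const_mul 2)
      refine e2.congr_deriv ?_
      simp only [id]
      ring
    refine monotoneOn_of_deriv_nonneg (convex_Ici 0) ?_ ?_ ?_
    · exact fun y _ => (hd y).continuousAt.continuousWithinAt
    · exact fun y _ => (hd y).differentiableAt.differentiableWithinAt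
    · intro y hy
      rw [(hd y).deriv]
      have e1 : (y + 1) * Real.exp (-y) ≤ Real.exp y * Real.exp (-y) :=
        mul_le_mul_of_nonneg_right (Real.add_one_le_exp y) (Real.exp_pos _).le
      rw [← Real.exp_add, add_neg_cancel, Real.exp_zero] at e1
      linarith
  have h2 := h1 (Set.self_mem_Ici) hx hx
  simp only [neg_zero, Real.exp_zero, sub_self, mul_zero, zero_mul] at h2
  linarith

/-- Trapezoid rule for `e^{-x}`. -/
theorem trap {a b : ℝ} (h : a ≤ b) :
    2 * (Real.exp (-a) - Real.exp (-b)) ≤ (b - a) * (Real.exp (-a) + Real.exp (-b)) := by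
  have h1 := trap0 (sub_nonneg.2 h)
  have h2 : Real.exp (-b) = Real.exp (-a) * Real.exp (-(b - a)) := by
    rw [← Real.exp_add]
    congr 1
    ring
  rw [h2]
  have h3 := mul_le_mul_of_nonneg_left h1 (Real.exp_pos (-a)).le
  linarith

/-- Summation of the trapezoid rule. -/
theorem trap_sum (f G : ℝ → ℝ) (F s : ℝ)
    (hstep : ∀ v, F * (f v + f (v + F)) / 2 ≤ G (v + F) - G v) (k : ℕ) :
    F * ∑ i ∈ range (k + 1), f (s + i * F) ≤
      G (s + k * F) - G s + F * (f s + f (s + k * F)) / 2 := by
  induction k with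
  | zero =>
    rw [sum_range_one]
    simp only [Nat.cast_zero, zero_mul, add_zero, sub_self, zero_add]
    linarith
  | succ k ih =>
    rw [sum_range_succ, mul_add]
    have h1 := hstep (s + k * F)
    have e1 : s + (k : ℝ) * F + F = s + ((k + 1 : ℕ) : ℝ) * F := by
      push_cast
      ring
    rw [e1] at h1
    linarith

/-- The lower bound of the factors. -/
theorem fac {p u x : ℝ} (hp : 0 < p) (hp1 : p < 1) (hu : 0 < u) (hu1 : u ≤ 1) (hx : 0 ≤ x)
    (hxu : x ≤ u) : Real.exp (-(-Real.log (1 - p * u) / u * x)) ≤ 1 - p * x := by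
  have h0 : p * u < 1 := by nlinarith
  have h1 := rpow_one_add_le_one_add_mul_self (s := -(p * u)) (by linarith)
    (p := x / u) (by positivity) ((div_le_one hu).2 hxu)
  have h2 : 1 + x / u * -(p * u) = 1 - p * x := by
    field_simp
    ring
  rw [h2, Real.rpow_def_of_pos (by linarith)] at h1
  refine le_trans (le_of_eq ?_) h1
  congr 1
  rw [show 1 + -(p * u) = 1 - p * u by ring]
  ring

/-- `-log (1 - y) ≤ (10/9) y` for `0 ≤ y ≤ 1/10`. -/
theorem logb {y : ℝ} (h0 : 0 ≤ y) (h1 : y ≤ 1 / 10) : -Real.log (1 - y) ≤ 10 / 9 * y := by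
  have h2 : 0 < 1 - y := by linarith
  have h3 := Real.log_le_sub_one_of_pos (inv_pos.2 h2)
  rw [Real.log_inv] at h3
  refine h3.trans ?_
  have h4 : (1 - y)⁻¹ ≤ 1 + 10 / 9 * y := by
    rw [inv_le_comm₀ h2 (by linarith), ← one_div, div_le_iff₀ (by linarith)]
    nlinarith
  linarith

/-- The sum in the first case. -/
theorem case1 (k : ℕ) {p u m F s : ℝ} (hu : 0 < u) (hF : 0 < F) (hum : Real.exp (-m) = 1 - u)
    (hs : 0 ≤ s) (hsF : s ≤ F) (hsm : s ≤ m) (hkF : m ≤ k * F) (hq : F / u * F / 2 ≤ p ^ 2) :
    -s + ∑ i ∈ range (k + 1), F / u * (1 - Real.exp (-(min m (s + i * F)))) ≤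
      (k + 1 / 2) * F - 1 - m + m / u + p ^ 2 := by
  have hm : 0 ≤ m := hs.trans hsm
  obtain ⟨q, hq'⟩ : ∃ q, q = F / u := ⟨_, rfl⟩
  have hq0 : 0 < q := by rw [hq']; positivity
  have hqu : q * u = F := by rw [hq']; field_simp
  rw [← hq'] at hq ⊢
  have h1 := trap_sum (fun v => -(q * (Real.exp (-(min m v)) - Real.exp (-m))))
    (fun v => q * (Real.exp (-(min m v)) - Real.exp (-m) * (1 + m - min m v))) F s ?_ k
  · have hk : min m (s + k * F) = m := min_eq_left (by linarith)
    have hsm' : min m s = s := min_eq_right hsm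
    simp only [hk, hsm', sub_self, mul_zero, neg_zero, add_zero] at h1
    have h2 : ∑ i ∈ range (k + 1), q * (1 - Real.exp (-(min m (s + i * F)))) =
        (k + 1) * F + ∑ i ∈ range (k + 1),
          -(q * (Real.exp (-(min m (s + i * F))) - Real.exp (-m))) := by
      have e1 : ((k : ℝ) + 1) * F = ∑ i ∈ range (k + 1), F := by
        rw [sum_const, card_range, nsmul_eq_mul]
        push_cast
        ring
      rw [e1, ← sum_add_distrib]
      refine sum_congr rfl fun i _ => ?_
      rw [hum, ← hqu]
      ring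
    rw [h2]
    obtain ⟨Sg, hSg⟩ : ∃ S, S = ∑ i ∈ range (k + 1),
          -(q * (Real.exp (-(min m (s + i * F))) - Real.exp (-m))) := ⟨_, rfl⟩
    rw [← hSg] at h1 ⊢
    have h3 : 1 - s ≤ Real.exp (-s) := by
      have := Real.add_one_le_exp (-s)
      linarith
    -- multiply by `F`
    have h4 : F * (-s + ((k + 1) * F + Sg)) ≤
        F * ((k + 1 / 2) * F - 1 - m + m / u + p ^ 2) := by
      have h5 : F * (m / u) = q * m := by rw [hq']; ring
      have h6 : q * (Real.exp (-s) - Real.exp (-m) * (1 + m - s)) ≥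
          F * (1 + m - s) - q * m := by
        rw [hum, ← hqu]
        nlinarith
      have h7 : F * (q * (Real.exp (-s) - Real.exp (-m))) / 2 ≥
          F * (F / 2 - p ^ 2) := by
        have h8 : q * (Real.exp (-s) - Real.exp (-m)) ≥ F - q * F := by
          rw [hum]
          have h9 : q * (Real.exp (-s) - (1 - u)) = q * u - q * (1 - Real.exp (-s)) := by ring
          rw [h9, hqu]
          have h10 : q * (1 - Real.exp (-s)) ≤ q * F :=
            mul_le_mul_of_nonneg_left (by linarith) hq0.le
          linarith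
        have h9 : F * (q * (Real.exp (-s) - Real.exp (-m))) ≥ F * (F - q * F) :=
          mul_le_mul_of_nonneg_left h8 hF.le
        nlinarith
      nlinarith
    exact le_of_mul_le_mul_left h4 hF
  · intro v
    obtain ⟨a, ha⟩ : ∃ a, a = min m v := ⟨_, rfl⟩
    obtain ⟨b, hb⟩ : ∃ b, b = min m (v + F) := ⟨_, rfl⟩
    rw [← ha, ← hb]
    have hab : a ≤ b := by
      rw [ha, hb]
      exact min_le_min_left _ (by linarith)
    have hbF : b - a ≤ F := by
      rw [ha, hb]
      rcases le_total m v with h | h
      · rw [min_eq_left h, min_eq_left (by linarith)]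
        linarith
      · rw [min_eq_right h]
        have := min_le_right m (v + F)
        linarith
    have ham : Real.exp (-m) ≤ Real.exp (-a) := by
      rw [Real.exp_le_exp]
      have := min_le_left m v
      rw [← ha] at this
      linarith
    have hbm : Real.exp (-m) ≤ Real.exp (-b) := by
      rw [Real.exp_le_exp]
      have := min_le_left m (v + F)
      rw [← hb] at this
      linarith
    have h2 := trap hab
    have h3 : (b - a) * (Real.exp (-a) + Real.exp (-b) - 2 * Real.exp (-m)) ≤
        F * (Real.exp (-a) + Real.exp (-b) - 2 * Real.exp (-m)) :=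
      mul_le_mul_of_nonneg_right hbF (by linarith)
    have h4 : Real.exp (-a) - Real.exp (-b) - Real.exp (-m) * (b - a) ≤
        F * (Real.exp (-a) + Real.exp (-b) - 2 * Real.exp (-m)) / 2 := by linarith
    have h5 := mul_le_mul_of_nonneg_left h4 hq0.le
    linarith

/-- The sum in the second case. -/
theorem case2 (k : ℕ) {p u F s : ℝ} (hu : 0 < u) (hF : 0 < F)
    (hs : 0 ≤ s) (hsF : s ≤ F) (hkF : 1 - Real.exp (-(k * F)) ≤ u)
    (hq : F / u * (1 + F) / 2 ≤ 11 / 10 * p) :
    -s + ∑ i ∈ range (k + 1), F / u * (1 - Real.exp (-(s + i * F))) ≤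
      (k * F - 1 + Real.exp (-(k * F))) / u + 11 / 10 * p := by
  obtain ⟨q, hq'⟩ : ∃ q, q = F / u := ⟨_, rfl⟩
  have hq0 : 0 < q := by rw [hq']; positivity
  have hqu : q * u = F := by rw [hq']; field_simp
  rw [← hq'] at hq ⊢
  have h1 := trap_sum (fun v => q * (1 - Real.exp (-v))) (fun v => q * (v + Real.exp (-v))) F s ?_ k
  · obtain ⟨Sg, hSg⟩ : ∃ S, S = ∑ i ∈ range (k + 1), q * (1 - Real.exp (-(s + i * F))) := ⟨_, rfl⟩
    rw [← hSg] at h1 ⊢
    obtain ⟨x, hx⟩ : ∃ x, x = (k : ℝ) * F := ⟨_, rfl⟩
    have hx0 : 0 ≤ x := by rw [hx]; positivity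
    rw [← hx] at h1 hkF ⊢
    have h3 : 1 - s ≤ Real.exp (-s) := by
      have := Real.add_one_le_exp (-s)
      linarith
    have h4 : Real.exp (-(s + x)) = Real.exp (-s) * Real.exp (-x) := by
      rw [← Real.exp_add]
      congr 1
      ring
    have h5 : Real.exp (-x) ≤ 1 := Real.exp_le_one_iff.2 (by linarith)
    have h6 : 0 < Real.exp (-(s + x)) := Real.exp_pos _
    -- multiply by `F`
    have h7 : F * (-s + Sg) ≤ F * ((x - 1 + Real.exp (-x)) / u + 11 / 10 * p) := by
      have e1 : F * ((x - 1 + Real.exp (-x)) / u) = q * (x - 1 + Real.exp (-x)) := by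
        rw [hq']; ring
      have e2 : (1 - s) * (1 - Real.exp (-x)) ≤ Real.exp (-s) * (1 - Real.exp (-x)) :=
        mul_le_mul_of_nonneg_right h3 (by linarith)
      have e3 : s * (1 - Real.exp (-x)) ≤ s * u := mul_le_mul_of_nonneg_left hkF hs
      have e4 : q * (s + x + Real.exp (-(s + x))) - q * (s + Real.exp (-s)) ≤
          q * (x - 1 + Real.exp (-x)) + F * s := by
        have e5 : s + x + Real.exp (-(s + x)) - (s + Real.exp (-s)) ≤
            x - 1 + Real.exp (-x) + s * u := by
          rw [h4]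
          linarith
        have e6 := mul_le_mul_of_nonneg_left e5 hq0.le
        have e7 : q * (s * u) = F * s := by rw [← hqu]; ring
        linarith
      have e8 : F * (q * (1 - Real.exp (-s)) + q * (1 - Real.exp (-(s + x)))) / 2 ≤
          F * (11 / 10 * p) := by
        have e9 : q * (1 - Real.exp (-s)) + q * (1 - Real.exp (-(s + x))) ≤ q * (1 + F) := by
          rw [← mul_add]
          exact mul_le_mul_of_nonneg_left (by linarith) hq0.le
        have e10 := mul_le_mul_of_nonneg_left e9 hF.le
        have e11 := mul_le_mul_of_nonneg_left hq hF.le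
        linarith
      rw [mul_add F ((x - 1 + Real.exp (-x)) / u), e1]
      linarith
    exact le_of_mul_le_mul_left h7 hF
  · intro v
    have h2 := trap (show v ≤ v + F by linarith)
    have h3 := mul_le_mul_of_nonneg_left h2 hq0.le
    have e : v + F - v = F := by ring
    rw [e] at h3
    linarith

/-- From the sum to the product. -/
theorem prod_of_sum {k : ℕ} {q s U A : ℝ} {c v : ℕ → ℝ} (hA : A = Real.exp (-s))
    (hc : ∀ i, Real.exp (-(q * (1 - Real.exp (-(v i))))) ≤ c i)
    (hsum : -s + ∑ i ∈ range (k + 1), q * (1 - Real.exp (-(v i))) ≤ U) :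
    A ≤ Real.exp U * ∏ i ∈ range (k + 1), c i := by
  have h1 : Real.exp (-(∑ i ∈ range (k + 1), q * (1 - Real.exp (-(v i))))) ≤
      ∏ i ∈ range (k + 1), c i := by
    rw [← sum_neg_distrib, Real.exp_sum]
    exact prod_le_prod (fun i _ => (Real.exp_pos _).le) fun i _ => hc i
  calc A = Real.exp (-s) := hA
    _ ≤ Real.exp (U + -(∑ i ∈ range (k + 1), q * (1 - Real.exp (-(v i))))) := by
        rw [Real.exp_le_exp]
        linarith
    _ = Real.exp U * Real.exp (-(∑ i ∈ range (k + 1), q * (1 - Real.exp (-(v i))))) :=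
        Real.exp_add _ _
    _ ≤ _ := mul_le_mul_of_nonneg_left h1 (Real.exp_pos _).le

/-- The choice of `s`. -/
theorem choose_s {A g F : ℝ} (hg : g = Real.exp (-F)) (hgA : g ≤ A) (hA1 : A ≤ 1) :
    ∃ s, 0 ≤ s ∧ s ≤ F ∧ A = Real.exp (-s) := by
  have hA0 : 0 < A := lt_of_lt_of_le (by rw [hg]; exact Real.exp_pos _) hgA
  refine ⟨-Real.log A, ?_, ?_, ?_⟩
  · have := Real.log_nonpos hA0.le hA1
    linarith
  · have h1 := Real.log_le_log (by rw [hg]; exact Real.exp_pos _) hgA
    rw [hg, Real.log_exp] at h1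
    linarith
  · rw [neg_neg, Real.exp_log hA0]

/-- UINF. -/
theorem uInf (hE : ExtUStmt) : UInfStmt := by
  intro k p X hp hp1 hX m U hm hc1 hc2 hlow hU
  obtain ⟨u, hu⟩ : ∃ u, u = 1 - Real.exp (-m) := ⟨_, rfl⟩
  have hem : Real.exp (-m) < 1 := Real.exp_lt_one_iff.2 (by linarith)
  have hem0 : 0 < Real.exp (-m) := Real.exp_pos _
  have hu0 : 0 < u := by rw [hu]; linarith
  have hu1 : u ≤ 1 := by rw [hu]; linarith
  have hum : Real.exp (-m) = 1 - u := by rw [hu]; ring
  rw [← hu] at hc1 hc2
  have hpu : 0 < p * u := by positivity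
  have hpu1 : p * u ≤ 1 / 10 := by nlinarith
  obtain ⟨F, hF⟩ : ∃ F, F = -Real.log (1 - p * u) := ⟨_, rfl⟩
  rw [← hF] at hc1 hc2
  have hF0 : 0 < F := by
    rw [hF]
    have := Real.log_neg (show 0 < 1 - p * u by linarith) (by linarith)
    linarith
  have hFb : F ≤ 10 / 9 * (p * u) := by rw [hF]; exact logb hpu.le hpu1
  have hg : 1 - p + p * Real.exp (-m) = Real.exp (-F) := by
    rw [hF, neg_neg, Real.exp_log (by linarith), hum]
    ring
  have hqb : F / u ≤ 10 / 9 * p := by
    rw [div_le_iff₀ hu0]
    linarith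
  have hq0 : 0 < F / u := by positivity
  have hFp : F ≤ 10 / 9 * p := by nlinarith
  have hres := hE k p X hp (by linarith) hX (Real.exp (-m)) (Real.exp U) hem0.le hem.le
    (Real.one_le_exp hU) ?_ ?_
  · rcases hres with h | h
    · exact Or.inl h
    · right
      filter_upwards [h] with n hn
      exact (Real.log_le_iff_le_exp (hX.1 n)).2 hn
  · intro A hA1 hA2 hA3
    obtain ⟨s, hs0, hsF, hAs⟩ := choose_s hg hA1 hA2
    have hsm : s ≤ m := by
      rw [hAs, Real.exp_le_exp] at hA3
      linarith
    rw [hg]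
    have hmax : ∀ i : ℕ, max (Real.exp (-m)) (A * Real.exp (-F) ^ i) =
        Real.exp (-(min m (s + i * F))) := by
      intro i
      rw [hAs, ← Real.exp_nat_mul, ← Real.exp_add,
        show -s + (i : ℝ) * -F = -(s + i * F) by ring]
      rcases le_total m (s + i * F) with h | h
      · rw [min_eq_left h, max_eq_left (Real.exp_le_exp.2 (by linarith))]
      · rw [min_eq_right h, max_eq_right (Real.exp_le_exp.2 (by linarith))]
    simp only [hmax]
    have hfac : ∀ i : ℕ, Real.exp (-(F / u * (1 - Real.exp (-(min m (s + i * F)))))) ≤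
        1 - p + p * Real.exp (-(min m (s + i * F))) := by
      intro i
      have hmin0 : 0 ≤ min m (s + i * F) := le_min hm.le (by positivity)
      have h1 := fac hp (by linarith) hu0 hu1
        (x := 1 - Real.exp (-(min m (s + i * F)))) (by
          have := Real.exp_le_one_iff.2 (show -(min m (s + i * F)) ≤ 0 by linarith)
          linarith) (by
          have h2 : Real.exp (-m) ≤ Real.exp (-(min m (s + i * F))) := by
            rw [Real.exp_le_exp]
            have := min_le_left m (s + i * F)
            linarith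
          linarith)
      rw [← hF] at h1
      linarith
    rcases le_or_gt m (k * F) with hk | hk
    · have h1 := hc1 hk
      refine prod_of_sum (q := F / u) (v := fun i => min m (s + i * F)) hAs hfac ?_
      refine (case1 k (p := p) hu0 hF0 hum hs0 hsF hsm hk ?_).trans h1
      have e1 : F / u * F ≤ 10 / 9 * p * (10 / 9 * p) :=
        mul_le_mul hqb hFp hF0.le (by positivity)
      nlinarith
    · have h1 := hc2 hk
      refine prod_of_sum (q := F / u) (v := fun i => min m (s + i * F)) hAs hfac ?_
      have h2 := case2 k (p := p) hu0 hF0 hs0 hsF (by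
        have h3 : Real.exp (-m) ≤ Real.exp (-(k * F)) := by
          rw [Real.exp_le_exp]
          linarith
        linarith) (by
        have e1 : F / u * (1 + F) ≤ 10 / 9 * p * (10 / 9) :=
          mul_le_mul hqb (by nlinarith) (by positivity) (by positivity)
        nlinarith)
      refine le_trans ?_ (h2.trans h1)
      refine add_le_add le_rfl (sum_le_sum fun i _ => ?_)
      refine mul_le_mul_of_nonneg_left ?_ hq0.le
      have h3 : Real.exp (-(s + i * F)) ≤ Real.exp (-(min m (s + i * F))) := by
        rw [Real.exp_le_exp]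
        have := min_le_right m (s + i * F)
        linarith
      linarith
  · filter_upwards [hlow] with n hn
    rw [← Real.exp_log (hX.1 n), Real.exp_le_exp]
    exact hn

/-- UINF, start without a lower bound. -/
theorem uStart (hE : ExtUStmt) : UStartStmt := by
  intro k p X hp hp1 hX U hU hc
  obtain ⟨F, hF⟩ : ∃ F, F = -Real.log (1 - p) := ⟨_, rfl⟩
  rw [← hF] at hc
  have hF0 : 0 < F := by
    rw [hF]
    have := Real.log_neg (show 0 < 1 - p by linarith) (by linarith)
    linarith
  have hFp : F ≤ 10 / 9 * p := by rw [hF]; exact logb hp.le hp1.le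
  have hg : 1 - p + p * 0 = Real.exp (-F) := by
    rw [hF, neg_neg, Real.exp_log (by linarith)]
    ring
  have hres := hE k p X hp (by linarith) hX 0 (Real.exp U) le_rfl zero_le_one
    (Real.one_le_exp hU) ?_ ?_
  · rcases hres with h | h
    · exact Or.inl h
    · right
      filter_upwards [h] with n hn
      exact (Real.log_le_iff_le_exp (hX.1 n)).2 hn
  · intro A hA1 hA2 _
    obtain ⟨s, hs0, hsF, hAs⟩ := choose_s hg hA1 hA2
    rw [hg]
    have hmax : ∀ i : ℕ, max 0 (A * Real.exp (-F) ^ i) = Real.exp (-(s + i * F)) := by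
      intro i
      rw [hAs, ← Real.exp_nat_mul, ← Real.exp_add,
        show -s + (i : ℝ) * -F = -(s + i * F) by ring]
      exact max_eq_right (Real.exp_pos _).le
    simp only [hmax]
    have hfac : ∀ i : ℕ, Real.exp (-(F / 1 * (1 - Real.exp (-(s + i * F))))) ≤
        1 - p + p * Real.exp (-(s + i * F)) := by
      intro i
      have hv : 0 ≤ s + i * F := by positivity
      have h1 := fac hp (by linarith) one_pos le_rfl
        (x := 1 - Real.exp (-(s + i * F))) (by
          have := Real.exp_le_one_iff.2 (show -(s + i * F) ≤ 0 by linarith)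
          linarith) (by
          have := Real.exp_pos (-(s + i * F))
          linarith)
      rw [mul_one, ← hF] at h1
      linarith
    refine prod_of_sum (q := F / 1) (v := fun i => s + i * F) hAs hfac ?_
    have h2 := case2 k (p := p) one_pos hF0 hs0 hsF (by
      have := Real.exp_pos (-(k * F))
      linarith) (by
      have e1 : F * (1 + F) ≤ 10 / 9 * p * (10 / 9) :=
        mul_le_mul hFp (by nlinarith) (by positivity) (by positivity)
      rw [div_one]
      nlinarith)
    rw [div_one (k * F - 1 + Real.exp (-(k * F)))] at h2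
    exact h2.trans hc
  · exact Eventually.of_forall fun n => (hX.1 n).le

end Pool.Agent.Helper90.DL
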